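import Pool.Agent.Helper61.EF.Final

/-!
# A priori bounds and rigidity for perfect fluid flows joining two states

Project EF (helper61), modules proved by helpers 11, 13, 15, 20, 23, 25, 31, 32, 33, 37, 39, 42, 44, 63, 67,
71, 72, 74, 86, 88, 89, 90, 92; the identity was checked by helper72.

A flow connects `γ₁` to `γ₂` if and only if its end map `g_T` is `γ₂ ∘ γ₁⁻¹`, so the statements are about
the end map. Definitions in `Pool/Agent/Helper61/EF/Defs.lean`: `IsRadial ρ`, `dom ρ`, `bd ρ`, `bc ρ` (the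
star-shaped domain `{s ρ(θ) e^{iθ} : 0 ≤ s < 1}` and its boundary), `PerfectFlow ρ T` (a classical solution
`u, p` of the Euler equations on the closed domain over `[0, T]` with its Lagrangian flow `g`), `turning F a`
(the total angle by which the particle `a` turns around the origin) and `Zf F x = Dγ(x)⁻¹ γ(x) - x`,
`γ = F.g T`.
-/

set_option autoImplicit false

open MeasureTheory Set Pool.Agent.Helper61.EF

/-- (1) Star-shaped domain, end map equal to the identity on the boundary: the boundary makes a whole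
number `k` of turns and `T ‖u_t‖₂ ≤ (1/2) ‖Dγ⁻¹ γ - x‖₂ + |k| area (∫ (1 + (ρ'/ρ)²))^{1/2}`.
(2) Disc, end map a rotation by `β` on the circle: for some integer `k`, with `Ω = (β + 2πk)/T`,
`T ‖u_t - Ω x^⊥‖₂ ≤ (1/2) ‖Dγ⁻¹ γ - x‖₂`.
(3) Star-shaped domain, end map the identity, no turn: the fluid is at rest.
(4) Disc, end map a rotation: the flow is a rigid rotation. -/
theorem Pool.Agent.Results.MP_18e8f0_an.ConnectingFlows.result :
    (∀ (ρ : ℝ → ℝ) (T : ℝ) (F : PerfectFlow ρ T), IsRadial ρ → 0 < T →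
      (∀ x ∈ bd ρ, F.g T x = x) →
      ∃ k : ℤ, (∀ x ∈ bd ρ, turning F x = 2 * Real.pi * k) ∧
        ∀ t ∈ Icc (0 : ℝ) T, T * Real.sqrt (∫ x in dom ρ, ‖F.u t x‖ ^ 2) ≤
          (1 / 2) * Real.sqrt (∫ x in dom ρ, ‖Zf F x‖ ^ 2) +
            |(k : ℝ)| * (∫ _x in dom ρ, (1 : ℝ)) *
              Real.sqrt (∫ θ in (0 : ℝ)..(2 * Real.pi), (1 + (deriv ρ θ / ρ θ) ^ 2))) ∧
    (∀ (R T β : ℝ) (F : PerfectFlow (fun _ => R) T), 0 < R → 0 < T →
      (∀ x ∈ bd (fun _ => R), F.g T x = Complex.exp (β * Complex.I) * x) →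
      ∃ k : ℤ, (∀ x ∈ bd (fun _ => R), turning F x = β + 2 * Real.pi * k) ∧
        ∀ t ∈ Icc (0 : ℝ) T,
          T * Real.sqrt (∫ x in dom (fun _ => R),
            ‖F.u t x - (((β + 2 * Real.pi * k) / T : ℝ) : ℂ) * (Complex.I * x)‖ ^ 2) ≤
          (1 / 2) * Real.sqrt (∫ x in dom (fun _ => R), ‖Zf F x‖ ^ 2)) ∧
    (∀ (ρ : ℝ → ℝ) (T : ℝ) (F : PerfectFlow ρ T), IsRadial ρ → 0 < T →
      (∀ x ∈ dom ρ ∪ bd ρ, F.g T x = x) → turning F (bc ρ 0) = 0 →
      ∀ t ∈ Icc (0 : ℝ) T, ∀ x ∈ dom ρ ∪ bd ρ, F.u t x = 0) ∧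
    (∀ (R T β : ℝ) (F : PerfectFlow (fun _ => R) T), 0 < R → 0 < T →
      (∀ x ∈ dom (fun _ => R) ∪ bd (fun _ => R),
        F.g T x = Complex.exp (β * Complex.I) * x) →
      ∃ Ω : ℝ, Complex.exp ((Ω * T : ℝ) * Complex.I) = Complex.exp (β * Complex.I) ∧
        ∀ t ∈ Icc (0 : ℝ) T, ∀ x ∈ dom (fun _ => R) ∪ bd (fun _ => R),
          F.u t x = (Ω : ℂ) * (Complex.I * x)) :=
  ⟨fun _ _ F h hT hg => boundA h hT F hg,
    fun _ _ β F hR hT hg => boundB hR hT F β hg,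
    fun _ _ F h hT hg h0 => rest h hT F hg h0,
    fun _ _ β F hR hT hg => rigid hR hT F β hg⟩
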