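import Pool.Agent.Helper5.VL.EnergyFinal

/-!
# The perfect fluid flows joining two states have bounded energy

Project VL (helper5), on top of the library EF (helper61 and others).

A flow connects `γ₁` to `γ₂` if and only if its end map `g_T` is `γ₂ ∘ γ₁⁻¹`, so the statement is about the end
map `γ = F.g T`; `T ‖u_t‖₂` is the length of the geodesic `t ↦ g_t`. Definitions in
`Pool/Agent/Helper61/EF/Defs.lean`: `IsRadial ρ` and `dom ρ` (the domain `{s ρ(θ) e^{iθ} : 0 ≤ s < 1}`),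
`PerfectFlow ρ T` (a classical solution `u, p` of the Euler equations on the closed domain over `[0, T]` with its
Lagrangian flow `g`). In `Pool/Agent/Helper5/VL`: `cv ρ > 0` (positive curvature of the boundary) and `dl ρ` (half
of the integral of the radius of curvature over the boundary minus the area; Strain), `Turns`, `Lb`, `Eb`
(EnergyFinal), `KK` (Num), `al L = (L 1 - i L i)/2` (Defs).
-/

set_option autoImplicit false

open MeasureTheory Set Pool.Agent.Helper61.EF Pool.Agent.Helper5.VL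

/-- (1) Strictly convex domains: the length `T ‖u_t‖` of a geodesic whose end map satisfies
`tr (e^{-iθ₀} Dγ) ≥ -2 + 2 ε` and `‖Dγ‖ ≤ M` is bounded in each class `k` of turns.
(2) Disc: relative to the rigid rotation by `θ₀ + 2 π k` the bound does not depend on `k`. -/
theorem Pool.Agent.Results.MP_18e8f0_an.EnergyBound.result :
    (∀ (ρ : ℝ → ℝ) (R₀ θ₀ ε M T : ℝ) (F : PerfectFlow ρ T), IsRadial ρ → ContDiff ℝ 2 ρ →
      (∀ θ, 0 < cv ρ θ) → (∀ θ, ρ θ ≤ R₀) → 0 < T → 0 < ε → ε ≤ 1 →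
      (∀ x ∈ dom ρ, -2 + 2 * ε ≤ (Complex.exp ((-θ₀ : ℝ) * Complex.I) * fderiv ℝ (F.g T) x 1).re +
        (Complex.exp ((-θ₀ : ℝ) * Complex.I) * fderiv ℝ (F.g T) x Complex.I).im) →
      (∀ x ∈ dom ρ, ‖fderiv ℝ (F.g T) x‖ ≤ M) →
      ∃ k : ℤ, Turns F (θ₀ + 2 * Real.pi * k) ∧ ∀ t ∈ Icc (0 : ℝ) T,
        T * Real.sqrt (∫ x in dom ρ, ‖F.u t x‖ ^ 2) ≤
          Eb R₀ M (∫ _x in dom ρ, (1 : ℝ))
            (Lb ε M (∫ _x in dom ρ, (1 : ℝ)) (θ₀ + 2 * Real.pi * k) (dl ρ) +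
              2 * |θ₀ + 2 * Real.pi * k| * ∫ _x in dom ρ, (1 : ℝ))) ∧
    (∀ (R θ₀ ε M T : ℝ) (F : PerfectFlow (fun _ => R) T), 0 < R → 0 < T → 0 < ε → ε ≤ 1 →
      (∀ x ∈ dom (fun _ => R),
        -2 + 2 * ε ≤ (Complex.exp ((-θ₀ : ℝ) * Complex.I) * fderiv ℝ (F.g T) x 1).re +
          (Complex.exp ((-θ₀ : ℝ) * Complex.I) * fderiv ℝ (F.g T) x Complex.I).im) →
      (∀ x ∈ dom (fun _ => R), ‖fderiv ℝ (F.g T) x‖ ≤ M) →
      ∃ k : ℤ, Turns F (θ₀ + 2 * Real.pi * k) ∧ ∀ t ∈ Icc (0 : ℝ) T,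
        T * Real.sqrt (∫ x in dom (fun _ => R),
          ‖F.u t x - (((θ₀ + 2 * Real.pi * k) / T : ℝ) : ℂ) * (Complex.I * x)‖ ^ 2) ≤
          Eb R M (Real.pi * R ^ 2) (Lb ε M (Real.pi * R ^ 2) 0 0)) :=
  ⟨fun _ _ _ _ _ _ F h h2 hq hR₀ hT hε hε1 htr hn => energy_final F h h2 hq hR₀ hT hε hε1 htr hn,
    fun _ _ _ _ _ F hR hT hε hε1 htr hn => energy_final_disc F hR hT hε hε1 htr hn⟩
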