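import Pool.Agent.Helper5.VL.Final

/-!
# The vorticity of the perfect fluid flows joining two states is bounded in `L¹`

Project VL (helper5), on top of the library EF (helper61 and others).

A flow connects `γ₁` to `γ₂` if and only if its end map `g_T` is `γ₂ ∘ γ₁⁻¹`, so the statement is about the end
map `γ = F.g T`. Definitions in `Pool/Agent/Helper61/EF/Defs.lean`: `IsRadial ρ` and `dom ρ` (the domain
`{s ρ(θ) e^{iθ} : 0 ≤ s < 1}`), `curl`, `PerfectFlow ρ T` (a classical solution `u, p` of the Euler equations on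
the closed domain over `[0, T]` with its Lagrangian flow `g`). In `Pool/Agent/Helper5/VL`: `al L = (L 1 - i L i)/2`
(the conformal part of a real linear map `L` of the plane `ℂ`, Defs), `KK` (a constant, Num), `cv ρ = ρ² + 2 ρ'² -
ρ ρ''` (positive: the boundary is strictly convex, Strain) and `dl ρ` (half of the integral of the radius of
curvature over the boundary minus the area of `dom ρ`, Strain; it is `0` for a disc).
-/

set_option autoImplicit false

open MeasureTheory Set Pool.Agent.Helper61.EF Pool.Agent.Helper5.VL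

/-- (1) Strictly convex domain `M₀ = dom ρ`. If the end map `γ` of a perfect fluid flow over `[0, T]` satisfies
`tr (e^{-iθ₀} Dγ) ≥ -2 + 2 ε` and `‖Dγ‖ ≤ M` on `M₀`, then with the integer `k` given by the number of turns of the
conformal part of `Dg_t`, the vorticity `ω_t` satisfies
`∫ |T ω_t - 2 θ₀ - 4 π k| ≤ (2 M / ε) (KK area + (θ₀ + 2 π k)² dl ρ)` for all `t`. (2) `dl = 0` for a disc. -/
theorem Pool.Agent.Results.MP_18e8f0_an.VorticityBound.result :
    (∀ (ρ : ℝ → ℝ) (θ₀ ε M T : ℝ) (F : PerfectFlow ρ T), IsRadial ρ → ContDiff ℝ 2 ρ → (∀ θ, 0 < cv ρ θ) →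
      0 < T → 0 < ε → ε ≤ 1 →
      (∀ x ∈ dom ρ, -2 + 2 * ε ≤ (Complex.exp ((-θ₀ : ℝ) * Complex.I) * fderiv ℝ (F.g T) x 1).re +
        (Complex.exp ((-θ₀ : ℝ) * Complex.I) * fderiv ℝ (F.g T) x Complex.I).im) →
      (∀ x ∈ dom ρ, ‖fderiv ℝ (F.g T) x‖ ≤ M) →
      ∃ k : ℤ,
        (∀ a ∈ dom ρ, ∃ φ : ℝ → ℝ, Continuous φ ∧ φ 0 = 0 ∧
          (∀ t ∈ Icc (0 : ℝ) T, al (fderiv ℝ (F.g t) a) =
            (‖al (fderiv ℝ (F.g t) a)‖ : ℂ) * Complex.exp ((φ t : ℂ) * Complex.I)) ∧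
          |φ T - θ₀ - 2 * Real.pi * k| < Real.pi) ∧
        ∀ t ∈ Icc (0 : ℝ) T,
          ∫ x in dom ρ, |T * curl (F.u t) x - 2 * θ₀ - 4 * Real.pi * k| ≤
            2 * M / ε * (KK (ε / (4 * M)) * (∫ _x in dom ρ, (1 : ℝ)) +
              (θ₀ + 2 * Real.pi * k) ^ 2 * dl ρ)) ∧
    ∀ R : ℝ, dl (fun _ => R) = 0 :=
  ⟨fun _ _ _ _ _ F h h2 hq hT hε hε1 htr hn => vorticity_L1_final F h h2 hq hT hε hε1 htr hn, dl_const⟩
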